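import Mathlib
import Pool.Agent.U753.MK.Stm

/-!
# Project MK, package EN: logarithms of regularised reduced states and entropies
-/

set_option autoImplicit false

open scoped BigOperators Matrix ComplexOrder Kronecker
open scoped Matrix.Norms.L2Operator

noncomputable section

namespace Pool.Agent.U261.MK

open Pool.Agent.U753.MK

variable {V : Type} [Fintype V] [DecidableEq V] {d : ℕ}

/-- The configurations on `A`. -/
abbrev SA (A : Finset V) (d : ℕ) : Type := {v // v ∈ A} → Fin d

/-- The configurations off `A`. -/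
abbrev WA (A : Finset V) (d : ℕ) : Type := {v // v ∉ A} → Fin d

/-- Splitting of configurations. -/
def eqv (A : Finset V) (d : ℕ) : (V → Fin d) ≃ SA A d × WA A d :=
  Equiv.piEquivPiSubtypeProd (fun v => v ∈ A) (fun _ => Fin d)

omit [Fintype V] in
lemma glu_eq (A : Finset V) (s : SA A d) (w : WA A d) : glu A s w = (eqv A d).symm (s, w) := rfl

/-- `M ⊗ 1`. -/
def lft (A : Finset V) (M : Matrix (SA A d) (SA A d) ℂ) : Matrix (V → Fin d) (V → Fin d) ℂ :=
  (M ⊗ₖ (1 : Matrix (WA A d) (WA A d) ℂ)).submatrix (eqv A d) (eqv A d)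

lemma lft_apply (A : Finset V) (M : Matrix (SA A d) (SA A d) ℂ) (s t : V → Fin d) :
    lft A M s t = if (eqv A d s).2 = (eqv A d t).2 then M (eqv A d s).1 (eqv A d t).1 else 0 := by
  simp only [lft, Matrix.submatrix_apply, Matrix.kroneckerMap_apply, Matrix.one_apply]
  split_ifs <;> simp

lemma lft_mul (A : Finset V) (M N : Matrix (SA A d) (SA A d) ℂ) :
    lft A (M * N) = lft A M * lft A N := by
  have h := Matrix.mul_kronecker_mul M N (1 : Matrix (WA A d) (WA A d) ℂ)
    (1 : Matrix (WA A d) (WA A d) ℂ)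
  rw [mul_one] at h
  rw [lft, h, ← Matrix.submatrix_mul_equiv _ _ _ (eqv A d)]
  rfl

lemma lft_one (A : Finset V) : lft A (1 : Matrix (SA A d) (SA A d) ℂ) = 1 := by
  rw [lft, Matrix.one_kronecker_one, Matrix.submatrix_one_equiv]

lemma lft_conj (A : Finset V) (M : Matrix (SA A d) (SA A d) ℂ) :
    lft A Mᴴ = (lft A M)ᴴ := by
  rw [lft, lft, Matrix.conjTranspose_submatrix, Matrix.conjTranspose_kronecker,
    Matrix.conjTranspose_one]

lemma lft_diag (A : Finset V) (q : SA A d → ℂ) :
    lft A (Matrix.diagonal q) = Matrix.diagonal fun s => q (eqv A d s).1 := by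
  ext s t
  rw [lft_apply]
  by_cases h : s = t
  · subst h; simp
  · rw [Matrix.diagonal_apply_ne _ h]
    split_ifs with h2
    · apply Matrix.diagonal_apply_ne
      intro h1
      exact h ((eqv A d).injective (Prod.ext h1 h2))
    · rfl

lemma lft_trace (A : Finset V) (ρ : Matrix (V → Fin d) (V → Fin d) ℂ)
    (M : Matrix (SA A d) (SA A d) ℂ) : (ρ * lft A M).trace = (ptr A ρ * M).trace := by
  simp only [Matrix.trace, Matrix.diag_apply, Matrix.mul_apply]
  rw [← (eqv A d).symm.sum_comp]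
  rw [Fintype.sum_prod_type]
  refine Finset.sum_congr rfl fun a _ => ?_
  have h1 : ∀ w : WA A d, ∑ t : V → Fin d, ρ ((eqv A d).symm (a, w)) t *
      lft A M t ((eqv A d).symm (a, w)) =
      ∑ b : SA A d, ρ (glu A a w) (glu A b w) * M b a := by
    intro w
    rw [← (eqv A d).symm.sum_comp, Fintype.sum_prod_type]
    refine Finset.sum_congr rfl fun b _ => ?_
    rw [Finset.sum_eq_single w]
    · rw [lft_apply]
      simp [glu_eq]
    · intro w' _ hw
      rw [lft_apply]
      simp [hw]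
    · simp
  rw [Finset.sum_congr rfl fun w _ => h1 w, Finset.sum_comm]
  refine Finset.sum_congr rfl fun b _ => ?_
  rw [← Finset.sum_mul]
  rfl

lemma ptr_trace (A : Finset V) (ρ : Matrix (V → Fin d) (V → Fin d) ℂ) :
    (ptr A ρ).trace = ρ.trace := by
  have h := lft_trace A ρ 1
  rw [lft_one, mul_one, mul_one] at h
  exact h.symm

lemma ptr_posSemidef (A : Finset V) (ρ : Matrix (V → Fin d) (V → Fin d) ℂ)
    (h : ρ.PosSemidef) : (ptr A ρ).PosSemidef := by
  have : ptr A ρ = ∑ w : WA A d, ρ.submatrix (fun s => glu A s w) (fun s => glu A s w) := by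
    ext s t
    rw [Matrix.sum_apply]
    rfl
  rw [this]
  exact Matrix.posSemidef_sum _ fun w _ => h.submatrix _

lemma card_eq (A : Finset V) (d : ℕ) :
    d ^ Fintype.card V = Fintype.card (SA A d) * Fintype.card (WA A d) := by
  rw [← Fintype.card_prod, ← Fintype.card_congr (eqv A d)]
  simp

omit [Fintype V] in
lemma cardSA (A : Finset V) (d : ℕ) : Fintype.card (SA A d) = d ^ A.card := by
  simp

lemma cexp_eq (A : Finset V) (hd : 0 < d) (Y : Matrix (V → Fin d) (V → Fin d) ℂ) :
    cexp A Y = lft A (((Fintype.card (WA A d) : ℂ))⁻¹ • ptr A Y) := by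
  have : NeZero d := ⟨hd.ne'⟩
  ext s t
  rw [lft_apply]
  have hcond : (∀ v, v ∉ A → s v = t v) ↔ (eqv A d s).2 = (eqv A d t).2 := by
    constructor
    · intro h
      funext v
      exact h v.1 v.2
    · intro h v hv
      exact congrFun h ⟨v, hv⟩
  have hsum : ∑ w : V → Fin d, Y (mix A s w) (mix A t w) =
      (Fintype.card (SA A d) : ℂ) * ptr A Y (eqv A d s).1 (eqv A d t).1 := by
    rw [← (eqv A d).symm.sum_comp, Fintype.sum_prod_type]
    have : ∀ a : SA A d, ∑ b : WA A d, Y (mix A s ((eqv A d).symm (a, b)))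
        (mix A t ((eqv A d).symm (a, b))) = ptr A Y (eqv A d s).1 (eqv A d t).1 := by
      intro a
      have hm : ∀ (r : V → Fin d) (b : WA A d), mix A r ((eqv A d).symm (a, b)) =
          glu A (eqv A d r).1 b := by
        intro r b
        funext v
        by_cases hv : v ∈ A
        · simp [mix, glu, hv, eqv]
        · simp [mix, glu, hv, eqv]
      simp only [hm]
      rfl
    rw [Finset.sum_congr rfl fun a _ => this a]
    simp
  have hS : (Fintype.card (SA A d) : ℂ) ≠ 0 := by
    have : 0 < Fintype.card (SA A d) := Fintype.card_pos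
    exact_mod_cast this.ne'
  have hN : ((d : ℂ) ^ Fintype.card V) = (Fintype.card (SA A d) : ℂ) * Fintype.card (WA A d) := by
    exact_mod_cast card_eq A d
  simp only [cexp, Matrix.of_apply]
  by_cases h : ∀ v, v ∉ A → s v = t v
  · rw [if_pos h, if_pos (hcond.1 h), hsum, hN, Matrix.smul_apply, smul_eq_mul]
    field_simp
  · rw [if_neg h, if_neg (fun h' => h (hcond.2 h'))]

lemma ptr_lin (A : Finset V) (a b : ℂ) (ρ : Matrix (V → Fin d) (V → Fin d) ℂ) :
    ptr A (a • ρ + b • (1 : Matrix (V → Fin d) (V → Fin d) ℂ)) =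
      a • ptr A ρ + (b * (Fintype.card (WA A d) : ℂ)) • (1 : Matrix (SA A d) (SA A d) ℂ) := by
  ext s t
  simp only [ptr, Matrix.of_apply, Matrix.add_apply, Matrix.smul_apply, smul_eq_mul,
    Finset.sum_add_distrib, ← Finset.mul_sum]
  congr 1
  rw [mul_assoc]
  congr 1
  by_cases h : s = t
  · subst h
    simp
  · rw [Matrix.one_apply_ne h, mul_zero]
    refine Finset.sum_eq_zero fun w _ => ?_
    rw [Matrix.one_apply_ne]
    intro h'
    rw [glu_eq, glu_eq] at h'
    have := (eqv A d).symm.injective h'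
    exact h (congrArg Prod.fst this)

lemma lft_unitary (A : Finset V) {U : Matrix (SA A d) (SA A d) ℂ}
    (hU : U ∈ Matrix.unitaryGroup (SA A d) ℂ) :
    lft A U ∈ Matrix.unitaryGroup (V → Fin d) ℂ := by
  rw [Matrix.mem_unitaryGroup_iff] at hU ⊢
  rw [Matrix.star_eq_conjTranspose, ← lft_conj, ← lft_mul, ← Matrix.star_eq_conjTranspose, hU,
    lft_one]

lemma exp_unitary_conj {n : Type} [Fintype n] [DecidableEq n] {U : Matrix n n ℂ}
    (hU : U ∈ Matrix.unitaryGroup n ℂ) (q : n → ℝ) :
    NormedSpace.exp (U * Matrix.diagonal (fun i => (q i : ℂ)) * Uᴴ) =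
      U * Matrix.diagonal (fun i => ((Real.exp (q i) : ℝ) : ℂ)) * Uᴴ := by
  have hinv : U⁻¹ = Uᴴ := by
    apply Matrix.inv_eq_left_inv
    rw [← Matrix.star_eq_conjTranspose]
    exact Matrix.mem_unitaryGroup_iff'.1 hU
  have hu : IsUnit U := by
    refine ⟨⟨U, Uᴴ, ?_, ?_⟩, rfl⟩
    · rw [← Matrix.star_eq_conjTranspose]; exact Matrix.mem_unitaryGroup_iff.1 hU
    · rw [← Matrix.star_eq_conjTranspose]; exact Matrix.mem_unitaryGroup_iff'.1 hU
  rw [← hinv, Matrix.exp_conj _ _ hu, Matrix.exp_diagonal]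
  congr 3
  funext i
  rw [Pi.coe_exp, ← Complex.exp_eq_exp_ℂ, Complex.ofReal_exp]

/-- Package EN of project MK. -/
theorem t_ent : StmEnt := by
  intro V _ _ d hd ρ hρ htr δ hδ0 hδ1 A
  have hd0 : 0 < d := by omega
  have : NeZero d := ⟨hd0.ne'⟩
  have hσp : (ptr A ρ).PosSemidef := ptr_posSemidef A ρ hρ
  have hσ : (ptr A ρ).IsHermitian := hσp.isHermitian
  have hσtr : (ptr A ρ).trace = 1 := by rw [ptr_trace, htr]
  obtain ⟨p, hp⟩ : ∃ p, p = hσ.eigenvalues := ⟨_, rfl⟩
  obtain ⟨U, hUdef⟩ : ∃ U : Matrix (SA A d) (SA A d) ℂ, U = (hσ.eigenvectorUnitary : _) := ⟨_, rfl⟩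
  have hU : U ∈ Matrix.unitaryGroup (SA A d) ℂ := by
    rw [hUdef]; exact (hσ.eigenvectorUnitary).2
  have hspec : ptr A ρ = U * Matrix.diagonal (fun i => (p i : ℂ)) * Uᴴ := by
    conv_lhs => rw [hσ.spectral_theorem]
    rw [Unitary.conjStarAlgAut_apply, hUdef, hp]
    rfl
  have hp0 : ∀ i, 0 ≤ p i := by
    intro i; rw [hp]; exact hσp.eigenvalues_nonneg i
  have hpsum : ∑ i, p i = 1 := by
    have h1 := hσ.trace_eq_sum_eigenvalues
    rw [hσtr] at h1
    rw [hp]
    have h2 : ((∑ i, hσ.eigenvalues i : ℝ) : ℂ) = 1 := by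
      push_cast
      exact h1.symm
    exact_mod_cast h2
  have hp1 : ∀ i, p i ≤ 1 := by
    intro i
    rw [← hpsum]
    exact Finset.single_le_sum (fun j _ => hp0 j) (Finset.mem_univ i)
  have hS0 : (0 : ℝ) < Fintype.card (SA A d) := by
    have : 0 < Fintype.card (SA A d) := Fintype.card_pos
    exact_mod_cast this
  have hW0 : (0 : ℝ) < Fintype.card (WA A d) := by
    have : 0 < Fintype.card (WA A d) := Fintype.card_pos
    exact_mod_cast this
  obtain ⟨D, hD⟩ : ∃ D : ℝ, D = Fintype.card (SA A d) := ⟨_, rfl⟩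
  obtain ⟨W, hW⟩ : ∃ W : ℝ, W = Fintype.card (WA A d) := ⟨_, rfl⟩
  rw [← hD] at hS0
  rw [← hW] at hW0
  have hD1 : 1 ≤ D := by
    have : 1 ≤ Fintype.card (SA A d) := Fintype.card_pos
    rw [hD]; exact_mod_cast this
  have hW1 : 1 ≤ W := by
    have : 1 ≤ Fintype.card (WA A d) := Fintype.card_pos
    rw [hW]; exact_mod_cast this
  have hdR : (1 : ℝ) ≤ d := by exact_mod_cast hd0
  have hlogd : 0 ≤ Real.log d := Real.log_nonneg hdR
  have hlogD : Real.log D = A.card * Real.log d := by
    rw [hD, cardSA]; push_cast; rw [Real.log_pow]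
  have hN : ((d : ℝ) ^ Fintype.card V) = D * W := by
    rw [hD, hW]; exact_mod_cast card_eq A d
  have hlogW : Real.log W = ((Fintype.card V : ℝ) - A.card) * Real.log d := by
    have h1 : Real.log ((d : ℝ) ^ Fintype.card V) = Real.log D + Real.log W := by
      rw [hN, Real.log_mul hS0.ne' hW0.ne']
    rw [Real.log_pow, hlogD] at h1
    linarith
  -- the regularised eigenvalues
  obtain ⟨p', hp'⟩ : ∃ p' : SA A d → ℝ, p' = fun i => (1 - δ) * p i + δ / D := ⟨_, rfl⟩
  have hp'i : ∀ i, p' i = (1 - δ) * p i + δ / D := fun i => by rw [hp']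
  have hδD : 0 < δ / D := div_pos hδ0 hS0
  have hp'lb : ∀ i, δ / D ≤ p' i := by
    intro i
    rw [hp'i]
    have := mul_nonneg (by linarith : (0 : ℝ) ≤ 1 - δ) (hp0 i)
    linarith
  have hp'pos : ∀ i, 0 < p' i := fun i => lt_of_lt_of_le hδD (hp'lb i)
  have hp'ub : ∀ i, p' i ≤ 1 := by
    intro i
    rw [hp'i]
    have h1 : (1 - δ) * p i ≤ (1 - δ) * 1 :=
      mul_le_mul_of_nonneg_left (hp1 i) (by linarith)
    have h2 : δ / D ≤ δ := div_le_self hδ0.le hD1
    linarith
  have hp'sum : ∑ i, p' i = 1 := by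
    simp only [hp'i]
    rw [Finset.sum_add_distrib, ← Finset.mul_sum, hpsum, Finset.sum_const, Finset.card_univ,
      nsmul_eq_mul, ← hD]
    field_simp
    ring
  obtain ⟨q, hq⟩ : ∃ q : SA A d → ℝ, q = fun i => Real.log (p' i) - Real.log W := ⟨_, rfl⟩
  have hqi : ∀ i, q i = Real.log (p' i) - Real.log W := fun i => by rw [hq]
  have hexpq : ∀ i, Real.exp (q i) = W⁻¹ * p' i := by
    intro i
    rw [hqi, Real.exp_sub, Real.exp_log (hp'pos i), Real.exp_log hW0]
    field_simp
  obtain ⟨M, hM⟩ : ∃ M : Matrix (SA A d) (SA A d) ℂ,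
    M = U * Matrix.diagonal (fun i => (q i : ℂ)) * Uᴴ := ⟨_, rfl⟩
  have hŨ := lft_unitary A hU
  have hX : lft A M = lft A U * Matrix.diagonal (fun s => (q (eqv A d s).1 : ℂ)) * (lft A U)ᴴ := by
    rw [hM, lft_mul, lft_mul, lft_conj, lft_diag]
  refine ⟨lft A M, ?_, ?_, ?_, ?_⟩
  · -- Hermitian
    rw [Matrix.IsHermitian, ← lft_conj, hM, Matrix.conjTranspose_mul, Matrix.conjTranspose_mul,
      Matrix.conjTranspose_conjTranspose, Matrix.diagonal_conjTranspose, mul_assoc]
    congr 4
    funext i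
    simp
  · -- exponential
    rw [hX, exp_unitary_conj hŨ]
    rw [cexp_eq A hd0, ptr_lin]
    have h1 : Matrix.diagonal (fun s => ((Real.exp (q (eqv A d s).1) : ℝ) : ℂ)) =
        lft A (Matrix.diagonal fun i => ((Real.exp (q i) : ℝ) : ℂ)) := by
      rw [lft_diag]
    rw [h1, ← lft_conj, ← lft_mul, ← lft_mul]
    congr 1
    have h2 : (Matrix.diagonal fun i => ((Real.exp (q i) : ℝ) : ℂ)) =
        ((W⁻¹ : ℝ) : ℂ) • ((((1 - δ : ℝ)) : ℂ) • Matrix.diagonal (fun i => (p i : ℂ)) +
          ((δ / D : ℝ) : ℂ) • (1 : Matrix (SA A d) (SA A d) ℂ)) := by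
      rw [← Matrix.diagonal_one, ← Matrix.diagonal_smul, ← Matrix.diagonal_smul,
        Matrix.diagonal_add, ← Matrix.diagonal_smul]
      congr 1
      funext i
      rw [hexpq, hp'i]
      simp only [Pi.smul_apply, smul_eq_mul]
      push_cast
      simp
    rw [h2]
    rw [hspec]
    have hUU : U * Uᴴ = 1 := by
      rw [← Matrix.star_eq_conjTranspose]; exact Matrix.mem_unitaryGroup_iff.1 hU
    rw [Matrix.mul_smul, Matrix.smul_mul, Matrix.mul_add, Matrix.add_mul, Matrix.mul_smul,
      Matrix.smul_mul, Matrix.mul_smul, Matrix.smul_mul, mul_one, hUU]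
    have h3 : ((W⁻¹ : ℝ) : ℂ) = ((Fintype.card (WA A d) : ℂ))⁻¹ := by
      rw [hW]; push_cast; rfl
    have h4 : ((δ / (d : ℝ) ^ Fintype.card V : ℝ) : ℂ) * (Fintype.card (WA A d) : ℂ) =
        ((δ / D : ℝ) : ℂ) := by
      have h5 : (Fintype.card (WA A d) : ℂ) = ((W : ℝ) : ℂ) := by rw [hW]; push_cast; rfl
      rw [h5, ← Complex.ofReal_mul, hN]
      congr 1
      field_simp
    rw [h3, h4]
  · -- norm
    rw [hX, ← Matrix.star_eq_conjTranspose,
      CStarRing.norm_mul_mem_unitary _ (Unitary.star_mem hŨ),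
      CStarRing.norm_mem_unitary_mul _ hŨ, Matrix.l2_opNorm_diagonal]
    have hB : 0 ≤ Real.log (1 / δ) := Real.log_nonneg (by
      rw [le_div_iff₀ hδ0]; linarith)
    rw [pi_norm_le_iff_of_nonneg (by positivity)]
    intro s
    rw [Complex.norm_real, Real.norm_eq_abs, abs_le, hqi]
    have h1 : Real.log (δ / D) ≤ Real.log (p' (eqv A d s).1) :=
      Real.log_le_log hδD (hp'lb _)
    have h2 : Real.log (p' (eqv A d s).1) ≤ 0 := Real.log_nonpos (hp'pos _).le (hp'ub _)
    have h3 : 0 ≤ Real.log W := Real.log_nonneg hW1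
    rw [Real.log_div hδ0.ne' hS0.ne', hlogD] at h1
    have h4 : Real.log (1 / δ) = - Real.log δ := by rw [one_div, Real.log_inv]
    have h5 : 0 ≤ (Fintype.card V : ℝ) * Real.log d := by positivity
    rw [h4] at hB ⊢
    constructor
    · rw [hlogW]
      nlinarith
    · linarith
  · -- entropies
    have htrX : (ρ * lft A M).trace = ((∑ i, p i * q i : ℝ) : ℂ) := by
      rw [lft_trace, hspec, hM]
      have hUU : Uᴴ * U = 1 := by
        rw [← Matrix.star_eq_conjTranspose]; exact Matrix.mem_unitaryGroup_iff'.1 hU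
      have : U * Matrix.diagonal (fun i => (p i : ℂ)) * Uᴴ *
          (U * Matrix.diagonal (fun i => (q i : ℂ)) * Uᴴ) =
          U * (Matrix.diagonal (fun i => (p i : ℂ)) * Matrix.diagonal (fun i => (q i : ℂ))) * Uᴴ := by
        calc _ = U * Matrix.diagonal (fun i => (p i : ℂ)) * (Uᴴ * U) *
            Matrix.diagonal (fun i => (q i : ℂ)) * Uᴴ := by simp only [mul_assoc]
          _ = _ := by rw [hUU, mul_one]; simp only [mul_assoc]
      rw [this, Matrix.trace_mul_comm, ← mul_assoc, hUU, one_mul, Matrix.diagonal_mul_diagonal,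
        Matrix.trace_diagonal]
      push_cast
      rfl
    have hvn : vnE (ptr A ρ) = ∑ i, Real.negMulLog (p i) := by
      rw [vnE, dif_pos hσ, hp]
    have hre : -(ρ * lft A M).trace.re = (∑ i, -(p i * Real.log (p' i))) + Real.log W := by
      rw [htrX, Complex.ofReal_re, Finset.sum_neg_distrib]
      have : ∑ i, p i * q i = ∑ i, p i * Real.log (p' i) - Real.log W := by
        simp only [hqi, mul_sub]
        rw [Finset.sum_sub_distrib, ← Finset.sum_mul, hpsum, one_mul]
      rw [this]; ring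
    rw [hre, hvn, ← hlogW]
    have hlow : ∀ i, Real.negMulLog (p i) + (p i - p' i) ≤ -(p i * Real.log (p' i)) := by
      intro i
      rw [Real.negMulLog]
      rcases (hp0 i).eq_or_lt with h | h
      · rw [← h]
        simp only [neg_zero, zero_mul, zero_sub, zero_add]
        linarith [hp'pos i]
      · have h1 := Real.log_le_sub_one_of_pos (div_pos (hp'pos i) h)
        rw [Real.log_div (hp'pos i).ne' h.ne'] at h1
        have h2 : p i * (Real.log (p' i) - Real.log (p i)) ≤ p i * (p' i / p i - 1) :=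
          mul_le_mul_of_nonneg_left h1 h.le
        have h3 : p i * (p' i / p i - 1) = p' i - p i := by field_simp
        rw [h3] at h2
        linarith
    have hupp : ∀ i, -(p i * Real.log (p' i)) ≤ Real.negMulLog (p i) + p i * (2 * δ) := by
      intro i
      rw [Real.negMulLog]
      rcases (hp0 i).eq_or_lt with h | h
      · rw [← h]; simp
      · have hδ' : 0 < 1 - δ := by linarith
        have h1 : (1 - δ) * p i ≤ p' i := by rw [hp'i]; linarith
        have h2 := Real.log_le_log (mul_pos hδ' h) h1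
        rw [Real.log_mul hδ'.ne' h.ne'] at h2
        have h3 : -(2 * δ) ≤ Real.log (1 - δ) := by
          have h4 := Real.one_sub_inv_le_log_of_pos hδ'
          have h5 : -(2 * δ) ≤ 1 - (1 - δ)⁻¹ := by
            have h6 : (1 - δ)⁻¹ ≤ 1 + 2 * δ := by
              rw [inv_le_comm₀ hδ' (by linarith), inv_eq_one_div, div_le_iff₀ (by linarith)]
              nlinarith
            linarith
          linarith
        have h7 : p i * (-(2 * δ) + Real.log (p i)) ≤ p i * Real.log (p' i) :=
          mul_le_mul_of_nonneg_left (by linarith) h.le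
        linarith
    constructor
    · have h1 := Finset.sum_le_sum fun i (_ : i ∈ Finset.univ) => hlow i
      rw [Finset.sum_add_distrib, Finset.sum_sub_distrib, hpsum, hp'sum] at h1
      linarith
    · have h1 := Finset.sum_le_sum fun i (_ : i ∈ Finset.univ) => hupp i
      rw [Finset.sum_add_distrib, ← Finset.sum_mul, hpsum] at h1
      linarith

end Pool.Agent.U261.MK
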